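import Pool.Agent.MWGR.StmtsE

set_option autoImplicit false

/-!
# Block MWGR (MP_23468a_al): row TSF, finitely many tasks
-/

namespace Pool.Agent.MWGR.H37

open Pool.Agent.Helper14_MV Pool.Agent.Helper2_MV Pool.Agent.MVO Pool.Agent.MWL Pool.Agent.MWS
  Pool.Agent.MWH Pool.Agent.MWGR

/-- **TSF** -/
theorem tsf : TsfStmt := by
  intro n β k B B' Q M
  induction Q with
  | nil =>
    intro _
    refine ⟨[], ?_, ?_⟩
    · intro e he
      exact absurd he List.not_mem_nil
    · intro θ _ _
      refine ⟨?_, ?_⟩
      · intro _ e he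
        exact absurd he List.not_mem_nil
      · intro _ q hq
        exact absurd hq List.not_mem_nil
  | cons q Q ih =>
    intro h
    obtain ⟨L1, hL1, hL1'⟩ := h q List.mem_cons_self
    obtain ⟨L2, hL2, hL2'⟩ := ih (fun r hr => h r (List.mem_cons_of_mem _ hr))
    refine ⟨L1 ++ L2, ?_, ?_⟩
    · intro e he
      rcases List.mem_append.1 he with he | he
      · exact hL1 e he
      · exact hL2 e he
    · intro θ h1 h2
      obtain ⟨a1, b1⟩ := hL1' θ h1 h2
      obtain ⟨a2, b2⟩ := hL2' θ h1 h2
      refine ⟨?_, ?_⟩
      · intro h3 e he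
        rcases List.mem_append.1 he with he | he
        · exact a1 h3 e he
        · exact a2 h3 e he
      · intro h3 r hr
        rcases List.mem_cons.1 hr with hr | hr
        · rw [hr]
          exact b1 (fun e he => h3 e (List.mem_append_left _ he))
        · exact b2 (fun e he => h3 e (List.mem_append_right _ he)) r hr

end Pool.Agent.MWGR.H37
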